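import Pool.Agent.Y763.PS.LevShort
import Pool.Agent.TH342.CV.Pairs
import Pool.Agent.H370R2.DirGood
import Pool.Agent.H370R2.Expl1

/-!
# k-level correlations of simple critical zeros in almost all short intervals

No hypothesis is assumed.  For `0 < h ≤ 1` put `c h = R0 / h + h (cMT⁻¹ - R0)`, with the
Montgomery-Taylor constant `cMT⁻¹ = 1.3274…` and `R0 = 1.0061…`, and `P h = (2 - c h) / h`.

Let `0 < η < 1` and `λ = (1 + η) / 2`.  For all `t ∈ [T, 2T]` outside a set of measure `T ^ (1 - δ)`, in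
all the intervals `(t, t + H]`, `T ^ η ≤ H ≤ T / 8`, the number of tuples of distinct ordinates of simple
zeros on the critical line of primitive Dirichlet L-functions (modulus `1`: the Riemann zeta
function), with all the differences from the first one, which is in `(t, t + H]`, in a box whose
sides are long intervals, is at least the proportion `((r + 1) P λ - r - ε) ^ m λ ^ (n + 1)` of the
expected number (the volume of the box times the number of zeros of zeta in the interval).  This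
holds for all boxes whose sides are at `r` positions at most, each used at most `m` times, at every
distance up to `C H`, uniformly.

For `r = 1`, in particular for pairs of zeros at any distance, the proportion is positive for
`η ≥ 0.422`, so that intervals much shorter than `√T` are allowed; for `r = 2`, in particular for
all triples, it is positive for `η ≥ 0.87`.

Idea of the proof.  In almost all short intervals the trace inequality for the zeros can only use
frequencies up to `λ log T`.  Cut the line into cells of `g` mean spacings, `g` large.  By Bessel's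
inequality for sampled exponentials a cell counts for at most `(1 + o(1)) λ g` in the trace
inequality: so the counts of the simple critical zeros, truncated at `(1 + o(1)) λ g`, have average
at least `(2 - c λ - o(1)) g`, at every shift.  This is used in blocks of length `T ^ (η - o(1))`.
The set `B` of the bad starting points of blocks has measure `T ^ (1 - δ)`; `t` is good if `B` has
density `o(1)` in all the intervals `[t, t + H]`, and in every interval near a good `t` some
translate of the grid of blocks meets `B` rarely.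
-/

open Filter Topology Complex MeasureTheory

namespace Pool.Agent.Results.MP_67227b_nt.KLevelAlmostAllShort

open Pool.Agent.TH342.CV

/-- `1/2 + i x` is a simple zero of `F` -/
def Simple (F : ℂ → ℂ) (x : ℝ) : Prop :=
  F (1 / 2 + x * I) = 0 ∧ analyticOrderNatAt F (1 / 2 + x * I) = 1

/-- the tuples `(x, y)`, `y = (y_i)`: `x ∈ (A, A + H]` is the ordinate of a simple zero of `F₀` on the
critical line, the `y_i` are distinct, `y_i` is the ordinate of a simple zero of `F_i` on the critical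
line and `(y_i - x) log T / 2π` is in the open interval `(α_i, β_i)` -/
def tuples {n : ℕ} (F₀ : ℂ → ℂ) (F : Fin n → ℂ → ℂ) (T A H : ℝ) (α β : Fin n → ℝ) :
    Set (ℝ × (Fin n → ℝ)) :=
  {z | A < z.1 ∧ z.1 ≤ A + H ∧ Simple F₀ z.1 ∧ Function.Injective z.2 ∧
    ∀ i, Simple (F i) (z.2 i) ∧ α i < (z.2 i - z.1) * Real.log T / (2 * Real.pi) ∧
      (z.2 i - z.1) * Real.log T / (2 * Real.pi) < β i}

/-- the Montgomery-Taylor constant -/
noncomputable def cMT : ℝ :=
  Real.sqrt 2 * Real.tan (1 / Real.sqrt 2) / (1 + Real.tan (1 / Real.sqrt 2) / Real.sqrt 2)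

/-- the mean square of the Montgomery-Taylor window, `1.0061...` -/
noncomputable def R0 : ℝ :=
  (1 + Real.sin (Real.sqrt 2) / Real.sqrt 2) / (4 * Real.sin (1 / Real.sqrt 2) ^ 2)

/-- the constant for frequencies up to `h log T`; `c 1 = cMT⁻¹ = 1.3274...` -/
noncomputable def c (h : ℝ) : ℝ := R0 / h + h * (cMT⁻¹ - R0)

/-- the lower bound for the averages of the truncated counts -/
noncomputable def P (h : ℝ) : ℝ := (2 - c h) / h

/-- modulus `1`: the Riemann zeta function -/
theorem zeta_case (χ : DirichletCharacter ℂ 1) :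
    χ.IsPrimitive ∧ DirichletCharacter.LFunction χ = riemannZeta := by
  refine ⟨?_, DirichletCharacter.LFunction_modOne_eq⟩
  rw [DirichletCharacter.level_one' χ rfl]
  exact DirichletCharacter.isPrimitive_one_level_one

lemma c_eq {h : ℝ} : c h = H295Iso.c0 h := by
  have h1 : cMT⁻¹ = H370.cMTinv := H370.cMTinv_eq
  have h2 := H228SI.constS 1 one_pos le_rfl
  have h4 : Real.sqrt 2 / 2 = 1 / Real.sqrt 2 := by
    rw [div_eq_div_iff (by norm_num) (by positivity), Real.mul_self_sqrt (by norm_num), one_mul]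
  have h3 : H295SI.RS (Real.sqrt 2) 0 = R0 := by
    unfold H295SI.RS R0
    have hs : Real.sqrt 2 ^ 2 = 2 := Real.sq_sqrt (by norm_num)
    rw [if_pos (by norm_num), hs, h4]
    simp only [abs_zero, sub_zero, mul_zero, Real.cos_zero, mul_one]
    ring
  have h5 : H295SI.cc 1 = H370.cMTinv := by
    unfold H295SI.cc H370.cMTinv
    rfl
  rw [mul_one, h5] at h2
  unfold c H295Iso.c0 H295SI.cR
  unfold H295SI.cR at h2
  rw [h3] at h2 ⊢
  rw [h1, ← h2]
  ring

lemma cMT_num : cMT⁻¹ ≤ 1.327503 := by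
  have h1 : cMT⁻¹ = H370.cMTinv := H370.cMTinv_eq
  rw [h1]
  exact H370.Expl.cMTinv_num

lemma R0_num : 1.00611 ≤ R0 ∧ R0 ≤ 1.00614 := by
  obtain ⟨h1, h2⟩ := H370.Expl.exp_num
  rw [abs_le] at h1 h2
  set S : ℝ := Real.sqrt 2 * Real.sin (1 / Real.sqrt 2) with hS
  set Q : ℝ := Real.cos (1 / Real.sqrt 2) with hQ
  have hs : Real.sqrt 2 ^ 2 = 2 := Real.sq_sqrt (by norm_num)
  have hs0 : Real.sqrt 2 ≠ 0 := by positivity
  have h3 : Real.sin (Real.sqrt 2) / Real.sqrt 2 = S * Q := by
    have e : Real.sqrt 2 = 2 * (1 / Real.sqrt 2) := by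
      field_simp
      exact hs
    have e2 : Real.sin (Real.sqrt 2) = 2 * Real.sin (1 / Real.sqrt 2) * Q := by
      conv_lhs => rw [e]
      rw [Real.sin_two_mul]
    rw [e2, hS, div_eq_iff hs0]
    have : Real.sqrt 2 * Real.sin (1 / Real.sqrt 2) * Q * Real.sqrt 2 =
        Real.sqrt 2 ^ 2 * Real.sin (1 / Real.sqrt 2) * Q := by ring
    rw [this, hs]
  have h4 : 4 * Real.sin (1 / Real.sqrt 2) ^ 2 = 2 * S ^ 2 := by
    rw [hS, mul_pow, hs]; ring
  unfold R0
  rw [h3, h4]
  have hSl : 0.918722 ≤ S := by norm_num at h2 ⊢; linarith [h2.1]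
  have hSu : S ≤ 0.918729 := by norm_num at h2 ⊢; linarith [h2.2]
  have hQl : 0.760241 ≤ Q := by norm_num at h1 ⊢; linarith [h1.1]
  have hQu : Q ≤ 0.760246 := by norm_num at h1 ⊢; linarith [h1.2]
  have hS2 : 0 < 2 * S ^ 2 := by positivity
  constructor
  · rw [le_div_iff₀ hS2]
    nlinarith
  · rw [div_le_iff₀ hS2]
    nlinarith

/-- two positions -/
lemma P_two {h : ℝ} (hh : 0.711 ≤ h) (hh1 : h ≤ 1) : 0 < 2 * P h - 1 := by
  obtain ⟨h1, h2⟩ := R0_num
  have h3 := cMT_num
  norm_num at h1 h2 h3 hh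
  have h0 : 0 < h := by linarith
  have e : 2 * P h - 1 = (4 * h - 2 * R0 - (1 + 2 * (cMT⁻¹ - R0)) * h ^ 2) / h ^ 2 := by
    unfold P c
    field_simp
    ring
  rw [e]
  apply div_pos _ (by positivity)
  have h4 : 0 ≤ h ^ 2 := by positivity
  have h5 : h ^ 2 ≤ 1 := by nlinarith
  nlinarith

/-- three positions -/
lemma P_three {h : ℝ} (hh : 0.935 ≤ h) (hh1 : h ≤ 1) : 0 < 3 * P h - 2 := by
  obtain ⟨h1, h2⟩ := R0_num
  have h3 := cMT_num
  norm_num at h1 h2 h3 hh
  have h0 : 0 < h := by linarith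
  have e : 3 * P h - 2 = (6 * h - 3 * R0 - (2 + 3 * (cMT⁻¹ - R0)) * h ^ 2) / h ^ 2 := by
    unfold P c
    field_simp
    ring
  rw [e]
  apply div_pos _ (by positivity)
  have h4 : 0 ≤ h ^ 2 := by positivity
  have h5 : h ^ 2 ≤ 1 := by nlinarith
  nlinarith

lemma tuples_eq {n : ℕ} (F₀ : ℂ → ℂ) (F : Fin n → ℂ → ℂ) {T : ℝ} (A H : ℝ) (α β : Fin n → ℝ)
    (hT : 1 < T) :
    tuples F₀ F T A H α β = Lev F₀ F A H (2 * Real.pi / Real.log T) α β := by
  ext z
  simp only [tuples, Lev, Set.mem_ofPred_eq]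
  refine and_congr_right fun _ => and_congr_right fun _ => and_congr_right fun _ =>
    and_congr_right fun _ => forall_congr' fun i => and_congr_right fun _ => and_congr ?_ ?_
  · exact (conv1 hT).symm
  · exact (conv2 hT).symm

/-- the sets of tuples are finite -/
theorem tuples_finite {n : ℕ} {q₀ : ℕ} [NeZero q₀] {χ₀ : DirichletCharacter ℂ q₀}
    (h₀ : χ₀.IsPrimitive) {q : Fin n → ℕ} [∀ i, NeZero (q i)]
    {χ : ∀ i, DirichletCharacter ℂ (q i)} (hχ : ∀ i, (χ i).IsPrimitive) {T A : ℝ} (H : ℝ)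
    {α : Fin n → ℝ} (β : Fin n → ℝ) (hT : 1 < T) (hA : 1 ≤ A) (hα : ∀ i, 0 ≤ α i) :
    (tuples (DirichletCharacter.LFunction χ₀) (fun i => DirichletCharacter.LFunction (χ i))
      T A H α β).Finite := by
  rw [tuples_eq _ _ _ _ _ _ hT]
  have hlog : 0 < Real.log T := Real.log_pos hT
  have hpi := Real.pi_pos
  exact lev_finite (H370.good_dirichlet χ₀ h₀) (fun i => H370.good_dirichlet (χ i) (hχ i)) hA
    (by positivity) hα

/-- **Main theorem.** -/
theorem result :
    (∀ (n r m : ℕ) (k : Fin n → Fin r),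
      (∀ j, (Finset.univ.filter (fun i => k i = j)).card ≤ m) → 1 ≤ m →
      ∀ η ε C : ℝ, 0 < η → η < 1 → 0 < ε → 0 ≤ C →
        ε < ((r : ℝ) + 1) * P ((1 + η) / 2) - r →
      ∃ L : ℝ, 0 < L ∧
      ∀ (q₀ : ℕ) [NeZero q₀] (χ₀ : DirichletCharacter ℂ q₀) (q : Fin r → ℕ) [∀ j, NeZero (q j)]
        (χ : ∀ j, DirichletCharacter ℂ (q j)), χ₀.IsPrimitive → (∀ j, (χ j).IsPrimitive) →
      ∃ δ : ℝ, 0 < δ ∧ ∃ T₀ : ℝ, ∀ T : ℝ, T₀ ≤ T →
        volume {t : ℝ | T ≤ t ∧ t ≤ 2 * T ∧ ¬ ∀ H : ℝ, T ^ η ≤ H → H ≤ T / 8 →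
          ∀ α β : Fin r → ℝ, (∀ j, 0 ≤ α j ∧ α j + L ≤ β j ∧
            β j * (2 * Real.pi / Real.log T) ≤ C * H ∧
            β j * (2 * Real.pi / Real.log T) ≤ T) →
          (((r : ℝ) + 1) * P ((1 + η) / 2) - r - ε) ^ m * ((1 + η) / 2) ^ (n + 1) *
            (∏ i, (β (k i) - α (k i))) * (H / (2 * Real.pi) * Real.log T) ≤
            ((tuples (DirichletCharacter.LFunction χ₀)
              (fun i => DirichletCharacter.LFunction (χ (k i))) T t H (fun i => α (k i))
              (fun i => β (k i))).ncard : ℝ)} ≤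
          ENNReal.ofReal (T ^ (1 - δ))) ∧
    (∀ h : ℝ, 0.711 ≤ h → h ≤ 1 → 0 < 2 * P h - 1) ∧
    (∀ h : ℝ, 0.935 ≤ h → h ≤ 1 → 0 < 3 * P h - 2) := by
  refine ⟨?_, fun h => P_two, fun h => P_three⟩
  intro n r m k hk hm η ε C hη0 hη1 hε hC hεr
  have hP : P ((1 + η) / 2) = (2 - H295Iso.c0 ((1 + η) / 2)) / ((1 + η) / 2) := by
    unfold P
    rw [c_eq]
  rw [hP] at hεr ⊢
  obtain ⟨L, hL, H0⟩ := Pool.Agent.Y763.PS.levels_almost k hk hm hη0 hη1 hε hC hεr
  refine ⟨L, hL, ?_⟩
  intro q₀ _ χ₀ q _ χ h₀ hχ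
  obtain ⟨δ, hδ, T0, hT0, H1⟩ := H0 (DirichletCharacter.LFunction χ₀)
    (fun i => DirichletCharacter.LFunction (χ i)) (H370.good_dirichlet χ₀ h₀)
    (Pool.Agent.Y763.PS.alm_prim χ₀ h₀)
    (fun i => H370.good_dirichlet (χ i) (hχ i)) (fun i => Pool.Agent.Y763.PS.alm_prim (χ i) (hχ i))
  refine ⟨δ, hδ, T0, fun T hT => (measure_mono ?_).trans (H1 T hT)⟩
  have hT10 : 10 ≤ T := hT0.trans hT
  rintro t ⟨ht1, ht2, ht3⟩
  refine ⟨ht1, ht2, fun hcon => ht3 ?_⟩
  intro H hH1 hH2 α β hαβ
  have key := hcon H hH1 hH2 α β hαβ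
  rw [tuples_eq _ _ _ _ _ _ (by linarith)]
  exact key

end Pool.Agent.Results.MP_67227b_nt.KLevelAlmostAllShort
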