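import Pool.Agent.Y748.DP.KCnt

/-!
# The correlations of the zeta zeros follow the sine kernel if and only if they are determinantal

No hypothesis is assumed; all nontrivial zeros are counted with multiplicity, on the line or not.
`Nk T a b` is the number of `k`-tuples of the problem, `k = m + 1`, for the box `B = [a, b]`.

A stationary determinantal point process of the line has a kernel `K(x - y)`,
`K(u) = ∫ φ(ξ) exp(2πiξu) dξ`, with a spectral density `0 ≤ φ ≤ 1`; its density is `∫ φ`, and `rho φ`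
are the correlation functions of the superposition of independent processes of this kind with
spectral densities `φ_1, …, φ_n` of total density `1`.  (Poisson processes are limits `n → ∞`;
thinned and rescaled determinantal processes are included.)

The theorem: if, for some heights tending to infinity, the pair correlation of the zeros is
asymptotically of this form, with any `n` and any `φ` which may even vary with the height, and if the
`k`-level correlation is asymptotically the one of the same processes, then the latter is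
asymptotically the determinant of the problem.  So Q1 holds if and only if, at all levels, the
correlations of the zeros are asymptotically of determinantal type: no other determinantal law can
be the limit along any sequence of heights.

Idea of the proof.  The form factor of the ordinates at small frequencies, known without hypotheses,
is the smallest possible one for a superposition of determinantal processes of density `1`; this
forces the autocorrelation of the spectral densities to be nearly `max(0, 1 - |α|)` for all `α`, and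
then one of the spectral densities to be nearly the indicator of an interval (a stability form of
the Riesz rearrangement inequality).
-/

open MeasureTheory Filter Topology

namespace Pool.Agent.Results.MP_67227b_nt.KLevelDeterminantal

/-- the nontrivial zeros of `ζ` with ordinate in `[0, T]` -/
def Zeros (T : ℝ) : Set ℂ :=
  {s : ℂ | riemannZeta s = 0 ∧ 0 < s.re ∧ s.re < 1 ∧ 0 ≤ s.im ∧ s.im ≤ T}

/-- the indices: a zero of multiplicity `m` has the `m` indices `(s, 0), …, (s, m - 1)` -/
def Index (T : ℝ) : Set (ℂ × ℕ) :=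
  {p | p.1 ∈ Zeros T ∧ p.2 < analyticOrderNatAt riemannZeta p.1}

/-- the number of the `(m + 1)`-tuples of distinct indices for which the differences of the first
`m` ordinates from the last one, times `(log T) / 2π`, are in the box `[a_1, b_1] × … × [a_m, b_m]` -/
noncomputable def Nk {m : ℕ} (T : ℝ) (a b : Fin m → ℝ) : ℕ :=
  {f : Fin (m + 1) → ℂ × ℕ | Function.Injective f ∧ (∀ i, f i ∈ Index T) ∧
    ∀ i : Fin m, ((f i.castSucc).1.im - (f (Fin.last m)).1.im) * Real.log T / (2 * Real.pi) ∈
      Set.Icc (a i) (b i)}.ncard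

/-- `(T log T) / 2π` -/
noncomputable def D (T : ℝ) : ℝ := T * Real.log T / (2 * Real.pi)

/-- the determinant of the problem: `a_ij = sin π(x_i - x_j) / π(x_i - x_j)`, which is `1` for
`x_i = x_j` (`Real.sinc y = (sin y) / y`, and `1` for `y = 0`) -/
noncomputable def detA {k : ℕ} (x : Fin k → ℝ) : ℝ :=
  Matrix.det (Matrix.of fun i j => Real.sinc (Real.pi * (x i - x j)))

/-- the problem: for every `k = m + 1 ≥ 2` and every box `[a, b]` of dimension `m` the number of
tuples divided by `(T log T) / 2π` tends to the integral of the determinant over the box (the last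
one of the `k` points is `0`) -/
def Q1 : Prop := ∀ m : ℕ, 1 ≤ m → ∀ a b : Fin m → ℝ,
  Tendsto (fun T : ℝ => (Nk T a b : ℝ) / D T) atTop
    (𝓝 (∫ u in Set.Icc a b, detA (Fin.snoc u 0 : Fin (m + 1) → ℝ)))

/-- `φ_1, …, φ_n` are spectral densities of determinantal processes (the operators with the kernels
`K_i(x - y)` satisfy `0 ≤ K_i ≤ 1`) and the total density is `1` -/
def Spectral {n : ℕ} (φ : Fin n → ℝ → ℝ) : Prop :=
  (∀ i, Measurable (φ i) ∧ Integrable (φ i) ∧ ∀ ξ, 0 ≤ φ i ξ ∧ φ i ξ ≤ 1) ∧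
    ∑ i, ∫ ξ, φ i ξ = 1

/-- the kernel with spectral density `φ` -/
noncomputable def K (φ : ℝ → ℝ) (u : ℝ) : ℂ :=
  ∫ ξ, (φ ξ : ℂ) * Complex.exp (2 * Real.pi * Complex.I * ξ * u)

/-- the correlation function of the superposition: the sum over all ways `c` to distribute the `k`
points among the `n` processes of the products of the determinants of the processes, that is, of the
determinant of the matrix with the entries `K_{c i}(x_i - x_j)` for `c i = c j` and `0` otherwise
(the matrix is Hermitian, its determinant is real) -/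
noncomputable def rho {n : ℕ} (φ : Fin n → ℝ → ℝ) {k : ℕ} (x : Fin k → ℝ) : ℝ :=
  ∑ c : Fin k → Fin n,
    (Matrix.det (Matrix.of fun i j => if c i = c j then K (φ (c i)) (x i - x j) else 0)).re

/-- along `l`, the `(m + 1)`-level correlation of the zeros up to height `T j` is asymptotically
that of the superposition with the spectral densities `φ j` -/
def Follows (m : ℕ) {ι : Type} (l : Filter ι) (T : ι → ℝ) {n : ι → ℕ}
    (φ : ∀ j, Fin (n j) → ℝ → ℝ) : Prop :=
  ∀ a b : Fin m → ℝ, Tendsto (fun j => (Nk (T j) a b : ℝ) / D (T j) -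
    ∫ u in Set.Icc a b, rho (φ j) (Fin.snoc u 0 : Fin (m + 1) → ℝ)) l (𝓝 0)

open Pool.Agent.Y748.DP in
lemma fam_of {n : ℕ} {φ : Fin n → ℝ → ℝ} (h : Spectral φ) : Fam n φ :=
  ⟨fun i => ⟨(h.1 i).1, fun ξ => ((h.1 i).2.2 ξ).1, fun ξ => ((h.1 i).2.2 ξ).2, (h.1 i).2.1⟩, h.2⟩

lemma rho_eq {n : ℕ} (φ : Fin n → ℝ → ℝ) {k : ℕ} (x : Fin k → ℝ) :
    rho φ x = Pool.Agent.Y748.DP.rho φ x := rfl

lemma detA_eq {k : ℕ} (x : Fin k → ℝ) : detA x = Pool.Agent.Y748.DP.sn x := rfl

lemma Nk_eq {m : ℕ} (T : ℝ) (a b : Fin m → ℝ) : Nk T a b = Pool.Agent.Y748.DP.Nk T a b := rfl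

open Pool.Agent.Y748.DP Pool.Agent.Y749.Rig in
lemma win_of {ι : Type} {l : Filter ι} {T : ι → ℝ} (hT : Tendsto T l atTop) {n : ι → ℕ}
    {φ : ∀ j, Fin (n j) → ℝ → ℝ} (hφ : ∀ j, Spectral (φ j)) (h : Follows 1 l T φ) (α β : ℝ)
    (hα : 0 < α) (hαβ : α < β) :
    Tendsto (fun j => (Mp (T j)).real (Set.Icc α β) - ∫ u in α..β, (1 - YY (φ j) u)) l (𝓝 0) := by
  refine (h (fun _ => α) (fun _ => β)).congr' ?_
  filter_upwards [hT.eventually (eventually_ge_atTop 10)] with j hj
  have e : (Nk (T j) (fun _ : Fin 1 => α) (fun _ => β) : ℝ) / D (T j) =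
      (Mp (T j)).real (Set.Icc α β) := by
    rw [Nk_eq, Nk_one (T j) hα]
    exact nw_Mp hj α β
  have e2 : ∫ u in Set.Icc (fun _ : Fin 1 => α) (fun _ => β),
      rho (φ j) (Fin.snoc u 0 : Fin (1 + 1) → ℝ) = ∫ u in α..β, (1 - YY (φ j) u) :=
    (fam_of (hφ j)).int_one hαβ.le
  rw [e, e2]

/-- **Main theorem.** -/
theorem result :
    (∀ (ι : Type) (l : Filter ι) (T : ι → ℝ), Tendsto T l atTop →
      ∀ (n : ι → ℕ) (φ : ∀ j, Fin (n j) → ℝ → ℝ), (∀ j, Spectral (φ j)) → Follows 1 l T φ →
        ∀ m : ℕ, Follows m l T φ → ∀ a b : Fin m → ℝ,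
          Tendsto (fun j => (Nk (T j) a b : ℝ) / D (T j)) l
            (𝓝 (∫ u in Set.Icc a b, detA (Fin.snoc u 0 : Fin (m + 1) → ℝ)))) ∧
    (Q1 ↔ ∃ (n : ℝ → ℕ) (φ : ∀ T, Fin (n T) → ℝ → ℝ), (∀ T, Spectral (φ T)) ∧
      ∀ m : ℕ, 1 ≤ m → Follows m atTop (fun T => T) φ) := by
  have main : ∀ (ι : Type) (l : Filter ι) (T : ι → ℝ), Tendsto T l atTop →
      ∀ (n : ι → ℕ) (φ : ∀ j, Fin (n j) → ℝ → ℝ), (∀ j, Spectral (φ j)) → Follows 1 l T φ →
        ∀ m : ℕ, Follows m l T φ → ∀ a b : Fin m → ℝ,
          Tendsto (fun j => (Nk (T j) a b : ℝ) / D (T j)) l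
            (𝓝 (∫ u in Set.Icc a b, detA (Fin.snoc u 0 : Fin (m + 1) → ℝ))) := by
    intro ι l T hT n φ hφ h1 m hm a b
    have hfam : ∀ j, Pool.Agent.Y748.DP.Fam (n j) (φ j) := fun j => fam_of (hφ j)
    rw [Metric.tendsto_nhds]
    intro ε hε
    obtain ⟨v, hv⟩ : ∃ v : ℝ, v = (volume : Measure (Fin m → ℝ)).real (Set.Icc a b) := ⟨_, rfl⟩
    have hv0 : 0 ≤ v := by rw [hv]; exact measureReal_nonneg
    obtain ⟨η, hη⟩ : ∃ η : ℝ, η = ε / (4 * (v + 1)) := ⟨_, rfl⟩
    have hη0 : 0 < η := by rw [hη]; positivity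
    filter_upwards [Pool.Agent.Y748.DP.klimit hT hfam (win_of hT hφ h1) (m + 1) hη0,
      (Metric.tendsto_nhds.1 (hm a b)) (ε / 2) (by positivity)] with j h2 h3
    rw [Real.dist_eq, sub_zero] at h3
    rw [Real.dist_eq]
    have h4 := (hfam j).box h2 a b
    rw [← hv] at h4
    have h5 : η * v ≤ ε / 4 := by
      have e : ε / 4 = η * (v + 1) := by rw [hη]; field_simp
      rw [e]
      nlinarith
    have h6 : |(∫ u in Set.Icc a b, rho (φ j) (Fin.snoc u 0 : Fin (m + 1) → ℝ)) -
        ∫ u in Set.Icc a b, detA (Fin.snoc u 0 : Fin (m + 1) → ℝ)| ≤ ε / 4 := h4.trans h5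
    have h7 := abs_sub_le ((Nk (T j) a b : ℝ) / D (T j))
      (∫ u in Set.Icc a b, rho (φ j) (Fin.snoc u 0 : Fin (m + 1) → ℝ))
      (∫ u in Set.Icc a b, detA (Fin.snoc u 0 : Fin (m + 1) → ℝ))
    linarith
  refine ⟨main, ?_, ?_⟩
  · intro h
    refine ⟨fun _ => 1, fun _ _ => (Set.Ioc (0 - 1 / 2 : ℝ) (0 + 1 / 2)).indicator fun _ => 1,
      fun _ => ?_, ?_⟩
    · have hs := Pool.Agent.Y748.DP.si_fam
      exact ⟨fun i => ⟨(hs.sp i).meas, (hs.sp i).int, fun ξ =>
        ⟨(hs.sp i).nonneg ξ, (hs.sp i).le_one ξ⟩⟩, hs.tot⟩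
    · intro m hm a b
      have h1 := (h m hm a b).sub_const
        (∫ u in Set.Icc a b, detA (Fin.snoc u 0 : Fin (m + 1) → ℝ))
      rw [sub_self] at h1
      refine h1.congr fun T => ?_
      congr 1
      refine integral_congr_ae (ae_of_all _ fun u => ?_)
      exact (Pool.Agent.Y748.DP.si_rho (Fin.snoc u 0 : Fin (m + 1) → ℝ)).symm
  · rintro ⟨n, φ, hφ, hF⟩ m hm a b
    exact main ℝ atTop (fun T => T) tendsto_id n φ hφ (hF 1 le_rfl) m (hF m hm) a b

end Pool.Agent.Results.MP_67227b_nt.KLevelDeterminantal
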