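import Pool.Agent.TH850.UR.Comp

/-!
# Number rigidity of the zeta zeros, unconditionally

The sine process (the point process with the determinantal correlation functions of the problem) is
number rigid: the configuration of its points outside a bounded window determines the number of
points inside.  We prove the finite form of this property for the nontrivial zeros of zeta, without
any hypothesis: for `t` in `[T, 2T]`, place the zeros at `Z = ((s - 1/2)/i - t) log T / 2π`.  Then
for every `a` and `J` the number of zeros with `|Re Z| ≤ a` is, up to an error of mean at most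
`C (1/√J + a³/J)`, an explicit affine function, independent of `T` and `t`, of the positions of the
zeros with `a < |Re Z| ≤ 2^q 4^J`; its nearest integer is the exact number, outside a set of `t` of
relative measure at most `2 C (1/√J + a³/J)`.
-/

open MeasureTheory

namespace Pool.Agent.Results.MP_67227b_nt.NumberRigidity

/-- the nontrivial zeros of zeta -/
def zeros : Set ℂ := {s : ℂ | riemannZeta s = 0 ∧ 0 < s.re ∧ s.re < 1}

/-- the position of the ordinate of `s` relative to `t`, in units of the mean spacing -/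
noncomputable def X (T t : ℝ) (s : ℂ) : ℝ := (s.im - t) * Real.log T / (2 * Real.pi)

/-- the complex position of the zero `s`; its real part is `X T t s`, and it is real when `s` is on
the critical line -/
noncomputable def Z (T t : ℝ) (s : ℂ) : ℂ :=
  ((s - 1 / 2) / Complex.I - t) * ((Real.log T / (2 * Real.pi) : ℝ) : ℂ)

/-- the number of zeros in the window, with multiplicity -/
noncomputable def inside (T a t : ℝ) : ℕ :=
  ∑ᶠ s ∈ {s : ℂ | s ∈ zeros ∧ |X T t s| ≤ a}, analyticOrderNatAt riemannZeta s

/-- the Fejer kernel `(sin z / z) ^ 2` -/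
noncomputable def fej (z : ℂ) : ℂ := if z = 0 then 1 else (Complex.sin z / z) ^ 2

/-- the average of the Fejer kernels at the scales `2, 4, …, 2 ^ J` -/
noncomputable def Phi (J : ℕ) (z : ℂ) : ℂ :=
  (∑ j ∈ Finset.Icc 1 J, fej (Real.pi * z / 2 ^ j)) / J

/-- the affine statistic of the zeros outside the window and at distance at most `2 ^ q 4 ^ J` -/
noncomputable def outside (q J : ℕ) (T a t : ℝ) : ℝ :=
  2 ^ q * ((2 ^ (J + 1) - 2) / J) -
    (∑ᶠ s ∈ {s : ℂ | s ∈ zeros ∧ a < |X T t s| ∧ |X T t s| ≤ 2 ^ q * 4 ^ J},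
      (analyticOrderNatAt riemannZeta s : ℂ) * Phi J (Z T t s / 2 ^ q)).re

/-- the real part of the complex position is the position of the ordinate -/
theorem Z_re (T t : ℝ) (s : ℂ) : (Z T t s).re = X T t s := by
  unfold Z X
  rw [Complex.mul_re, Complex.ofReal_re, Complex.ofReal_im, mul_zero, sub_zero]
  have : ((s - 1 / 2) / Complex.I - t).re = s.im - t := by
    rw [Complex.div_I]
    simp
  rw [this]
  ring

/-- the complex position of a critical zero is real -/
theorem Z_im (T t : ℝ) (s : ℂ) (hs : s.re = 1 / 2) : (Z T t s).im = 0 := by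
  unfold Z
  rw [Complex.mul_im, Complex.ofReal_re, Complex.ofReal_im, mul_zero, zero_add]
  have : ((s - 1 / 2) / Complex.I - t).im = 0 := by
    rw [Complex.div_I]
    simp [hs]
  rw [this, zero_mul]

theorem Z_eq (T t : ℝ) (s : ℂ) : Z T t s = Pool.Agent.TH850.UR.Z T t s := by
  unfold Z Pool.Agent.TH850.UR.Z H370.zz
  congr 2
  rw [Complex.div_I]
  ring

theorem outside_eq (q J : ℕ) (T a t : ℝ) :
    outside q J T a t = Pool.Agent.TH850.UR.guess q J T a t := by
  unfold outside Pool.Agent.TH850.UR.guess Pool.Agent.TH850.UR.outer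
  simp only [Z_eq]
  rfl

/-- **Number rigidity of the zeta zeros.** -/
theorem result :
    ∃ C : ℝ, 0 < C ∧ ∃ q : ℕ, ∀ a : ℝ, 0 ≤ a → ∀ J : ℕ, 1 ≤ J → ∃ T₀ : ℝ, ∀ T : ℝ, T₀ ≤ T →
      IntervalIntegrable (fun t => (inside T a t : ℝ) - outside q J T a t) volume T (2 * T) ∧
      (∫ t in T..(2 * T), |(inside T a t : ℝ) - outside q J T a t|) ≤
        C * (1 / Real.sqrt J + a ^ 3 / J) * T ∧
      volume {t : ℝ | T ≤ t ∧ t ≤ 2 * T ∧ round (outside q J T a t) ≠ (inside T a t : ℤ)} ≤
        ENNReal.ofReal (2 * (C * (1 / Real.sqrt J + a ^ 3 / J) * T)) := by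
  obtain ⟨C, hC, q, h⟩ := Pool.Agent.TH850.UR.main
  refine ⟨C, hC, q, fun a ha J hJ => ?_⟩
  obtain ⟨T0, hT0, hT⟩ := h a ha J hJ
  refine ⟨T0, fun T hT1 => ?_⟩
  obtain ⟨h1, h2⟩ := hT T hT1
  have h3 := Pool.Agent.TH850.UR.markov q J (T := T) (a := a) (by linarith) h1 h2
  simp only [outside_eq]
  exact ⟨h1, h2, h3⟩

end Pool.Agent.Results.MP_67227b_nt.NumberRigidity
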