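import Pool.Agent.Y796.PA.Pat
import Pool.Agent.H370R2.DirGood
set_option autoImplicit false

/-!
# Isolated zeros and patterns of zeros in almost all short intervals, unconditionally

No hypothesis is assumed.  Let `L(s, χ)` be the L-function of a primitive Dirichlet character
(modulus `1`: the Riemann zeta function), `0 < η < 1` and `0 < h ≤ (1 + η) / 2`.  For all large `T`,
all `T ^ η ≤ H ≤ T / 8` and all `t ∈ [T, 2T]` outside a set of measure at most `T ^ (1 - δ)` the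
following holds in the interval `(t, t + H]`.

1. If `h r ≤ 1 / 3`, a proportion `1 - (c(h) - 1) / K(h r)² - ε` of the zeros are simple, lie on the
critical line, and have no other zero within `r` times the mean spacing (in a box around them).
2. Let `0 < r ≤ 9 / (10 h)`, and let `a_1, …, a_m` be arbitrary numbers in `[0, κ H log T]`.  The
numbers of `(k + 1)`-tuples of simple critical zeros which form, up to `r` mean spacings, a translate
of `k + 1` of the `a_i`, summed over all sets of `k + 1` indices, are at least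
`(C(n,k) m (2 - c h - ε) - k C(n+1,k+1) / r) (H / 2π) log T`, for every `n`, uniformly in `r`, `k`,
`m` and the `a_i`.
3. If `m r (2 - c h) > k` then there are `k + 1` of the `a_i` for which there are `≫ H log T` tuples:
a lower bound of the conjectured order for the `(k + 1)`-level correlations in some box of half side
`r` around differences of the given numbers.
4. For `η ≥ 1 / 8` this holds with `r = 1`, for every `k` and all large `m`.

In every interval (starting results `IsolatedShort`, `PatternsInTranslates`) this was known for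
`h = η` only, so that 3 requires `η > 0.552`.
-/

open Filter Topology Complex MeasureTheory

namespace Pool.Agent.Results.MP_67227b_nt.PatternsAlmostAllIntervals

/-- the nontrivial zeros of `F` with ordinate in `(T₁, T₂]` -/
def zeros (F : ℂ → ℂ) (T₁ T₂ : ℝ) : Set ℂ :=
  {s : ℂ | F s = 0 ∧ 0 < s.re ∧ s.re < 1 ∧ T₁ < s.im ∧ s.im ≤ T₂}

/-- the multiplicity of a zero -/
noncomputable def mult (F : ℂ → ℂ) (s : ℂ) : ℕ := analyticOrderNatAt F s

/-- `x` is the ordinate in `(T₁, T₂]` of a simple zero of `F` on the critical line -/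
def IsSimpleOrd (F : ℂ → ℂ) (T₁ T₂ x : ℝ) : Prop :=
  (1 / 2 + x * I : ℂ) ∈ zeros F T₁ T₂ ∧ mult F (1 / 2 + x * I : ℂ) = 1

/-- for a set `I` of indices: the number of the families `(x_i)`, `i ∈ I`, of ordinates in
`(T₁, T₂]` of simple zeros of `F` on the critical line such that all the normalised differences
`(x_i - x_j) * log τ / 2π` are within `r` of `a_i - a_j` -/
noncomputable def P (F : ℂ → ℂ) (τ T₁ T₂ r : ℝ) {m : ℕ} (a : Fin m → ℝ) (I : Finset (Fin m)) : ℕ :=
  {x : I → ℝ | (∀ i, IsSimpleOrd F T₁ T₂ (x i)) ∧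
    ∀ i j : I, |(x i - x j) * Real.log τ / (2 * Real.pi) - (a i - a j)| < r}.ncard

/-- `Q T H t` holds in almost all short intervals: for all large `T`, all `T ^ η ≤ H ≤ T / 8` and
all `t ∈ [T, 2T]` outside a set of measure at most `T ^ (1 - δ)`, for some `δ > 0` -/
def AlmostAll (η : ℝ) (Q : ℝ → ℝ → ℝ → Prop) : Prop :=
  ∃ δ : ℝ, 0 < δ ∧ ∃ T₀ : ℝ, ∀ T : ℝ, T₀ ≤ T → ∀ H : ℝ, T ^ η ≤ H → H ≤ T / 8 →
    volume {t : ℝ | t ∈ Set.Icc T (2 * T) ∧ ¬ Q T H t} ≤ ENNReal.ofReal (T ^ (1 - δ))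

/-- the number of zeros in `(T₁, T₂]`, with multiplicity -/
noncomputable def N (F : ℂ → ℂ) (T₁ T₂ : ℝ) : ℕ := ∑ᶠ s ∈ zeros F T₁ T₂, mult F s

/-- the simple zeros on the critical line with ordinate in `(T₁, T₂]` for which no other nontrivial
zero `s'` has `|Im s' - Im s| ≤ ρ` and `|Re s' - 1/2| ≤ w` -/
def isolated (F : ℂ → ℂ) (T₁ T₂ ρ w : ℝ) : Set ℂ :=
  {s : ℂ | s ∈ zeros F T₁ T₂ ∧ s.re = 1 / 2 ∧ mult F s = 1 ∧
    ∀ s' : ℂ, F s' = 0 → 0 < s'.re → s'.re < 1 → s' ≠ s → |s'.im - s.im| ≤ ρ →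
      w < |s'.re - 1 / 2|}

/-- the Montgomery-Taylor kernel at `r` times the mean spacing -/
noncomputable def K (r : ℝ) : ℝ :=
  (∫ t in (-1 / 2 : ℝ)..(1 / 2), Real.cos (Real.sqrt 2 * t) * Real.cos (2 * Real.pi * r * t)) /
    (Real.sqrt 2 * Real.sin (1 / Real.sqrt 2))

/-- the Montgomery-Taylor constant -/
noncomputable def cMT : ℝ :=
  Real.sqrt 2 * Real.tan (1 / Real.sqrt 2) / (1 + Real.tan (1 / Real.sqrt 2) / Real.sqrt 2)

/-- the mean square of the Montgomery-Taylor window, `1.0061...` -/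
noncomputable def R0 : ℝ :=
  (1 + Real.sin (Real.sqrt 2) / Real.sqrt 2) / (4 * Real.sin (1 / Real.sqrt 2) ^ 2)

/-- the constant for the bandwidth `h`; `c 1 = cMT⁻¹ = 1.3274...` -/
noncomputable def c (h : ℝ) : ℝ := R0 / h + h * (cMT⁻¹ - R0)

lemma zeros_eq (F : ℂ → ℂ) (T₁ T₂ : ℝ) : zeros F T₁ T₂ = H370.zset F T₁ T₂ := by
  ext s
  simp only [zeros, H370.zset, Set.mem_ofPred_eq]
  tauto

/-- modulus `1`: the Riemann zeta function -/
theorem zeta_case (χ : DirichletCharacter ℂ 1) :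
    χ.IsPrimitive ∧ DirichletCharacter.LFunction χ = riemannZeta := by
  refine ⟨?_, DirichletCharacter.LFunction_modOne_eq⟩
  rw [DirichletCharacter.level_one' χ rfl]
  exact DirichletCharacter.isPrimitive_one_level_one

/-- the sets of zeros of the L-functions are finite -/
theorem zeros_finite {q : ℕ} [NeZero q] (χ : DirichletCharacter ℂ q) (hχ : χ.IsPrimitive)
    (T₁ T₂ : ℝ) (hT : 1 ≤ T₁) : (zeros (DirichletCharacter.LFunction χ) T₁ T₂).Finite := by
  rw [zeros_eq]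
  exact H370.zset_finite (H370.good_dirichlet χ hχ) T₁ T₂ hT

theorem c_eq {h : ℝ} (hh : 0 < h) : c h = H295Iso.c0 h := by
  have h1 : cMT⁻¹ = H370.cMTinv := H370.cMTinv_eq
  have h2 := H228SI.constS 1 one_pos le_rfl
  have h4 : Real.sqrt 2 / 2 = 1 / Real.sqrt 2 := by
    rw [div_eq_div_iff (by norm_num) (by positivity), Real.mul_self_sqrt (by norm_num), one_mul]
  have h3 : H295SI.RS (Real.sqrt 2) 0 = R0 := by
    unfold H295SI.RS R0
    have hs : Real.sqrt 2 ^ 2 = 2 := Real.sq_sqrt (by norm_num)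
    rw [if_pos (by norm_num), hs, h4]
    simp only [abs_zero, sub_zero, mul_zero, Real.cos_zero, mul_one]
    ring
  have h5 : H295SI.cc 1 = H370.cMTinv := by
    unfold H295SI.cc H370.cMTinv
    rfl
  rw [mul_one, h5] at h2
  unfold c H295Iso.c0 H295SI.cR
  unfold H295SI.cR at h2
  rw [h3] at h2 ⊢
  rw [h1, ← h2]
  ring

theorem N_eq (F : ℂ → ℂ) (T₁ T₂ : ℝ) : N F T₁ T₂ = H370.NN F T₁ T₂ := by
  unfold N H370.NN
  rw [zeros_eq]
  rfl

theorem isolated_eq (F : ℂ → ℂ) (T H ρ w : ℝ) :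
    (isolated F T (T + H) ρ w).ncard = H295Iso.isoN F T H ρ w := by
  unfold isolated H295Iso.isoN H295Iso.isoSet
  rw [zeros_eq]
  rfl

theorem K_eq (r : ℝ) : K r = H344.KK r := by
  have h := H370.GramAux.kap_re_mul (2 * Real.pi * r)
  have hd := H370.GramAux.den_pos.ne'
  unfold K H344.KK
  rw [← h, mul_div_cancel_left₀ _ hd]

/-- a numerical bound -/
lemma R0_le : R0 ≤ 1.0062 := by
  have hcn := H370.Expl.cMTinv_num
  have hs2 : (0 : ℝ) < Real.sqrt 2 := by positivity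
  have hsq : Real.sqrt 2 ^ 2 = 2 := Real.sq_sqrt (by norm_num)
  have hsin := H370.GramAux.sin_half_pos
  set S := Real.sin (1 / Real.sqrt 2) with hS
  set C := Real.cos (1 / Real.sqrt 2) with hC
  have hSC : S ^ 2 + C ^ 2 = 1 := Real.sin_sq_add_cos_sq _
  have hC0 : 0 < C := by
    apply Real.cos_pos_of_mem_Ioo
    have h1 := H370.GramAux.half_pos
    have h2 := H370.GramAux.half_lt
    constructor <;> linarith [Real.pi_pos]
  have h1 : C / S / Real.sqrt 2 ≤ 0.827503 := by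
    unfold H370.cMTinv at hcn
    rw [Real.cot_eq_cos_div_sin, ← hS, ← hC] at hcn
    clear_value S C
    norm_num at hcn ⊢
    linarith
  have h2 : C ≤ 0.827503 * Real.sqrt 2 * S := by
    rw [div_div, div_le_iff₀ (by positivity)] at h1
    linarith
  have h3 : C ^ 2 ≤ 1.369524 * S ^ 2 := by
    have h4 : C ^ 2 ≤ (0.827503 * Real.sqrt 2 * S) ^ 2 := pow_le_pow_left₀ hC0.le h2 2
    have h5 : (0.827503 * Real.sqrt 2 * S) ^ 2 = 0.827503 ^ 2 * 2 * S ^ 2 := by
      rw [mul_pow, mul_pow, hsq]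
    rw [h5] at h4
    refine h4.trans (mul_le_mul_of_nonneg_right (by norm_num) (sq_nonneg S))
  have h4 : 1 ≤ 2.369524 * S ^ 2 := by
    norm_num at h3 ⊢
    linarith
  have h6 : Real.sin (Real.sqrt 2) = 2 * S * C := by
    rw [hS, hC, ← Real.sin_two_mul]
    congr 1
    field_simp
    rw [hsq]
  have h7 : Real.sin (Real.sqrt 2) / Real.sqrt 2 ≤ 1.655006 * S ^ 2 := by
    rw [div_le_iff₀ hs2, h6]
    have h8 : 2 * S * C ≤ 2 * S * (0.827503 * Real.sqrt 2 * S) :=
      mul_le_mul_of_nonneg_left h2 (by positivity)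
    refine h8.trans (le_of_eq ?_)
    ring
  unfold R0
  rw [← hS, div_le_iff₀ (by positivity)]
  norm_num at h4 h7 ⊢
  linarith

/-- `c (9 / 16) < 2`: all `η ≥ 1 / 8` are admissible -/
theorem c_num : c (9 / 16) < 2 := by
  have h1 : cMT⁻¹ = H370.cMTinv := H370.cMTinv_eq
  have hcn := H370.Expl.cMTinv_num
  have h2 := R0_le
  unfold c
  rw [h1]
  norm_num at hcn h2 ⊢
  linarith

lemma ord_finite {F : ℂ → ℂ} {T₁ T₂ : ℝ} (hfin : (zeros F T₁ T₂).Finite) :
    {x : ℝ | IsSimpleOrd F T₁ T₂ x}.Finite := by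
  refine Set.Finite.of_finite_image (f := fun x : ℝ => (1 / 2 + x * I : ℂ))
    (hfin.subset ?_) ?_
  · rintro s ⟨x, hx, rfl⟩
    exact hx.1
  · intro x _ y _ hxy
    have := congrArg Complex.im hxy
    simpa using this

lemma ord_bd {F : ℂ → ℂ} {T₁ T₂ x : ℝ} (hx : IsSimpleOrd F T₁ T₂ x) : T₁ < x ∧ x ≤ T₂ := by
  have him : (1 / 2 + (x : ℂ) * I).im = x := by simp
  have := hx.1.2.2.2
  rw [him] at this
  exact this

/-- the sets counted by `P` are finite -/
lemma P_finite {F : ℂ → ℂ} {T₁ T₂ : ℝ} (hfin : (zeros F T₁ T₂).Finite) (τ r : ℝ) {m : ℕ}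
    (a : Fin m → ℝ) (I : Finset (Fin m)) :
    {x : I → ℝ | (∀ i, IsSimpleOrd F T₁ T₂ (x i)) ∧
    ∀ i j : I, |(x i - x j) * Real.log τ / (2 * Real.pi) - (a i - a j)| < r}.Finite := by
  refine (Set.Finite.pi (fun _ : I => ord_finite hfin)).subset ?_
  rintro x ⟨h, -⟩
  rw [Set.mem_pi]
  intro i _
  exact h i

lemma P_ge {F : ℂ → ℂ} {T₁ T₂ : ℝ} (hfin : (zeros F T₁ T₂).Finite) {τ : ℝ} (hτ : 1 < τ) (r D : ℝ)
    {m : ℕ} (a : Fin m → ℝ) (I : Finset (Fin m)) {S : Finset ℝ}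
    (hS : ∀ x ∈ S, IsSimpleOrd F T₁ T₂ x) :
    Pool.Agent.TH300.ZS.tup S (fun i => (D - a i) * (2 * Real.pi / Real.log τ)) I
      (r * (2 * Real.pi / Real.log τ)) ≤ P F τ T₁ T₂ r a I := by
  classical
  have hpi := Real.pi_pos
  have hlog : 0 < Real.log τ := Real.log_pos hτ
  set σ : ℝ := 2 * Real.pi / Real.log τ with hσ
  have hσ0 : 0 < σ := by positivity
  unfold Pool.Agent.TH300.ZS.tup P
  rw [← Set.ncard_coe_finset]
  apply Set.ncard_le_ncard _ (P_finite hfin τ r a I)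
  intro x hx
  rw [Finset.mem_coe, Finset.mem_filter, Fintype.mem_piFinset] at hx
  refine ⟨fun i => hS _ (hx.1 i), fun i j => ?_⟩
  have h1 := hx.2 i j
  have e : x i + (D - a i) * σ - (x j + (D - a j) * σ) =
      ((x i - x j) * Real.log τ / (2 * Real.pi) - (a i - a j)) * σ := by
    rw [hσ]; field_simp; ring
  rw [e, abs_mul, abs_of_pos hσ0] at h1
  exact lt_of_mul_lt_mul_right h1 hσ0.le

/-- the common final step of the proof of the inequality -/
lemma core {F : ℂ → ℂ} {τ T₁ H p ε κ r : ℝ} (hfin : (zeros F T₁ (T₁ + H)).Finite) (hτ : 1 < τ)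
    (hH : 0 < H) (hr : 0 < r) (hp : p ≤ 2) (hε : 0 < ε) (hκ0 : 0 ≤ κ) (S : Finset ℝ)
    (hS : ∀ x ∈ S, IsSimpleOrd F T₁ (T₁ + H) x)
    (hU : r * (p - ε / 3) * H ≤
      (volume (Pool.Agent.W201.UU (r * (2 * Real.pi / Real.log τ) / 2) S)).toReal)
    (hκ : 2 * Real.pi * κ + r * (2 * Real.pi / Real.log τ) / H ≤ ε / 3) {m : ℕ}
    (a : Fin m → ℝ) (ha : ∀ i, 0 ≤ a i ∧ a i ≤ κ * (H * Real.log τ)) (k n : ℕ) :
    (n.choose k * m * (p - ε) - k * (n + 1).choose (k + 1) / r) *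
      (H / (2 * Real.pi) * Real.log τ) ≤
      ∑ I ∈ Finset.powersetCard (k + 1) (Finset.univ : Finset (Fin m)),
        (P F τ T₁ (T₁ + H) r a I : ℝ) := by
  classical
  have hpi := Real.pi_pos
  have hlog : 0 < Real.log τ := Real.log_pos hτ
  set σ : ℝ := 2 * Real.pi / Real.log τ with hσ
  have hσ0 : 0 < σ := by positivity
  have hS' : ∀ x ∈ S, T₁ ≤ x ∧ x ≤ T₁ + H := fun x hx =>
    ⟨(ord_bd (hS x hx)).1.le, (ord_bd (hS x hx)).2⟩
  have h1 := Pool.Agent.TH300.ZS.tup_fin hσ0 hH hr hp hε (by positivity) hS' hU hκ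
    (fun i => (κ * (H * Real.log τ) - a i) * σ) (fun i => ⟨mul_nonneg (by linarith [(ha i).2]) hσ0.le, by
      have h2 : (κ * (H * Real.log τ) - a i) * σ ≤ κ * (H * Real.log τ) * σ :=
        mul_le_mul_of_nonneg_right (by linarith [(ha i).1]) hσ0.le
      have e : κ * (H * Real.log τ) * σ = 2 * Real.pi * κ * H := by rw [hσ]; field_simp
      linarith⟩) k n
  have e1 : (H / σ) = H / (2 * Real.pi) * Real.log τ := by rw [hσ]; field_simp
  rw [e1] at h1
  refine h1.trans (Finset.sum_le_sum fun I _ => ?_)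
  exact_mod_cast P_ge hfin hτ r _ a I hS

/-- the inequality for the families -/
theorem families {q : ℕ} [NeZero q] (χ : DirichletCharacter ℂ q) (hχ : χ.IsPrimitive)
    (η h ε : ℝ) (hη0 : 0 < η) (hη1 : η < 1) (hh : 0 < h) (hh1 : 2 * h ≤ 1 + η) (hε : 0 < ε) :
    ∃ κ : ℝ, 0 < κ ∧ AlmostAll η fun T H t =>
      ∀ r : ℝ, 0 < r → h * r ≤ 9 / 10 →
      ∀ (k m n : ℕ) (a : Fin m → ℝ), (∀ i, 0 ≤ a i ∧ a i ≤ κ * (H * Real.log T)) →
        (n.choose k * m * (2 - c h - ε) - k * (n + 1).choose (k + 1) / r) *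
          (H / (2 * Real.pi) * Real.log T) ≤
          ∑ I ∈ Finset.powersetCard (k + 1) (Finset.univ : Finset (Fin m)),
            (P (DirichletCharacter.LFunction χ) T t (t + H) r a I : ℝ) := by
  have hpi := Real.pi_pos
  have hF := H370.good_dirichlet χ hχ
  have hB := Pool.Agent.Y796.PA.bz_prim χ hχ
  have hc0 := Pool.Agent.Y796.PA.c0_nonneg hh
  have h1 := Pool.Agent.Y796.PA.nbhd_aa hF hB hη0 hη1 hh hh1 (show 0 < ε / 3 by linarith)
  obtain ⟨T₂, hT₂⟩ := (Real.tendsto_log_atTop.eventually_ge_atTop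
    (2 * Real.pi * (9 / (10 * h)) / (ε / 6))).exists_forall_of_atTop
  refine ⟨ε / (6 * (2 * Real.pi)), by positivity,
    Pool.Agent.Y796.PA.aa_mono (T1 := max 10 T₂) h1 ?_⟩
  intro T hTT t ht H hH hU r hr0 hrh k m n a ha
  have hT10 : 10 ≤ T := (le_max_left _ _).trans hTT
  have hTT2 := hT₂ T ((le_max_right _ _).trans hTT)
  have hlog : 0 < Real.log T := Real.log_pos (by linarith)
  have hH1 : 1 ≤ H := (Real.one_le_rpow (by linarith) hη0.le).trans hH
  have ht1 : 1 ≤ t := by linarith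
  have hSo : ∀ x ∈ H370.SF (DirichletCharacter.LFunction χ) t (t + H),
      IsSimpleOrd (DirichletCharacter.LFunction χ) t (t + H) x := by
    intro x hx
    have h2 := H344.mem_SF.mp hx
    rw [mul_comm] at h2
    exact ⟨by rw [zeros_eq]; exact (H370.mem_Zf hF ht1).mp h2.1, h2.2⟩
  rw [c_eq hh]
  refine core (F := DirichletCharacter.LFunction χ) (τ := T) (T₁ := t) (H := H)
    (p := 2 - H295Iso.c0 h) (ε := ε) (κ := ε / (6 * (2 * Real.pi))) (r := r)
    (zeros_finite χ hχ t (t + H) ht1) (by linarith) (by linarith) hr0 (by linarith) hε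
    (by positivity) (H370.SF (DirichletCharacter.LFunction χ) t (t + H)) hSo (hU r hr0 hrh) ?_
    a ha k n
  have e : 2 * Real.pi * (ε / (6 * (2 * Real.pi))) = ε / 6 := by field_simp
  rw [e]
  have h3 : r * (2 * Real.pi / Real.log T) ≤ ε / 6 := by
    have h4 : r ≤ 9 / (10 * h) := by
      rw [le_div_iff₀ (by positivity)]; linarith
    rw [div_le_iff₀ (by positivity)] at hTT2
    rw [mul_div_assoc', div_le_iff₀ hlog]
    have h5 : r * (2 * Real.pi) ≤ 9 / (10 * h) * (2 * Real.pi) :=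
      mul_le_mul_of_nonneg_right h4 (by positivity)
    linarith
  have h4 : r * (2 * Real.pi / Real.log T) / H ≤ ε / 6 := by
    rw [div_le_iff₀ (by linarith)]
    nlinarith
  linarith

/-- patterns -/
theorem patterns {q : ℕ} [NeZero q] (χ : DirichletCharacter ℂ q) (hχ : χ.IsPrimitive)
    (η h r : ℝ) (k m : ℕ) (hη0 : 0 < η) (hη1 : η < 1) (hh : 0 < h) (hh1 : 2 * h ≤ 1 + η)
    (hr0 : 0 < r) (hrh : h * r ≤ 9 / 10) (hm : (k : ℝ) < m * r * (2 - c h)) :
    ∃ c₀ : ℝ, 0 < c₀ ∧ ∃ κ : ℝ, 0 < κ ∧ AlmostAll η fun T H t =>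
      ∀ a : Fin m → ℝ, (∀ i, 0 ≤ a i ∧ a i ≤ κ * (H * Real.log T)) →
      ∃ I : Finset (Fin m), I.card = k + 1 ∧
        c₀ * (H / (2 * Real.pi) * Real.log T) ≤
          (P (DirichletCharacter.LFunction χ) T t (t + H) r a I : ℝ) := by
  classical
  have hpi := Real.pi_pos
  set p : ℝ := 2 - c h with hp
  have hk0 : (0 : ℝ) ≤ k := Nat.cast_nonneg k
  have hmn : (0 : ℝ) ≤ m := Nat.cast_nonneg m
  have hm0 : (0 : ℝ) < m := by
    rcases hmn.eq_or_lt with hc | hc
    · rw [← hc, zero_mul, zero_mul] at hm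
      linarith
    · exact hc
  have hp0 : 0 < p := by
    by_contra hc
    push Not at hc
    have h1 : (m : ℝ) * r * p ≤ 0 := mul_nonpos_of_nonneg_of_nonpos (by positivity) hc
    linarith
  have hg0 : 0 < p - k / (m * r) := by
    rw [sub_pos, div_lt_iff₀ (by positivity)]
    linarith
  set ε : ℝ := (p - k / (m * r)) / 2 with hε
  have hε0 : 0 < ε := by rw [hε]; linarith
  obtain ⟨κ, hκ, h1⟩ := families χ hχ η h ε hη0 hη1 hh hh1 hε0
  set C : ℝ := (m : ℝ) * ε with hC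
  have hC0 : 0 < C := by positivity
  set B : ℝ := ((m.choose (k + 1) : ℕ) : ℝ) + 1 with hB
  have hB0 : 0 < B := by positivity
  refine ⟨C / B, by positivity, κ, hκ, Pool.Agent.Y796.PA.aa_mono (T1 := 10) h1 ?_⟩
  intro T hT t ht H hH h1 a ha
  have hlog : 0 < Real.log T := Real.log_pos (by linarith)
  have hH1 : 1 ≤ H := (Real.one_le_rpow (by linarith) hη0.le).trans hH
  have hM : 0 < H / (2 * Real.pi) * Real.log T := by
    have : 0 < H := by linarith
    positivity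
  have h1 := h1 r hr0 hrh k m k a ha
  rw [Nat.choose_self, Nat.choose_self] at h1
  have h2 : C * (H / (2 * Real.pi) * Real.log T) ≤
      ∑ I ∈ Finset.powersetCard (k + 1) (Finset.univ : Finset (Fin m)),
        (P (DirichletCharacter.LFunction χ) T t (t + H) r a I : ℝ) := by
    refine le_trans (mul_le_mul_of_nonneg_right (le_of_eq ?_) hM.le) h1
    rw [hC]
    have e1 : (p - k / (m * r)) / 2 = p - ε - k / (m * r) := by rw [hε]; ring
    have e2 : ε = p - ε - k / (m * r) := by rw [← e1]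
    have e3 : (m : ℝ) * ε = m * (p - ε) - k / r := by
      rw [e2]
      have : (m : ℝ) * (k / (m * r)) = k / r := by field_simp
      have e4 : (m : ℝ) * (p - ε - k / (m * r)) = m * (p - ε) - m * (k / (m * r)) := by ring
      rw [e4, this, ← e2]
    push_cast
    rw [one_mul, mul_one]
    exact e3
  by_contra hcon
  push Not at hcon
  have h3 : ∀ I ∈ Finset.powersetCard (k + 1) (Finset.univ : Finset (Fin m)),
      (P (DirichletCharacter.LFunction χ) T t (t + H) r a I : ℝ) ≤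
        C / B * (H / (2 * Real.pi) * Real.log T) := by
    intro I hI
    exact (hcon I (Finset.mem_powersetCard.mp hI).2).le
  have h4 := h2.trans (Finset.sum_le_sum h3)
  rw [Finset.sum_const, Finset.card_powersetCard, Finset.card_univ, Fintype.card_fin,
    nsmul_eq_mul] at h4
  have h5 : ((m.choose (k + 1) : ℕ) : ℝ) * (C / B * (H / (2 * Real.pi) * Real.log T)) <
      C * (H / (2 * Real.pi) * Real.log T) := by
    have e : C * (H / (2 * Real.pi) * Real.log T) =
        B * (C / B * (H / (2 * Real.pi) * Real.log T)) := by field_simp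
    rw [e]
    apply mul_lt_mul_of_pos_right _ (by positivity)
    rw [hB]; linarith
  linarith

/-- **Isolated zeros and patterns in almost all short intervals.** -/
theorem result (q : ℕ) [NeZero q] (χ : DirichletCharacter ℂ q) (hχ : χ.IsPrimitive)
    (η : ℝ) (hη0 : 0 < η) (hη1 : η < 1) :
    -- isolated zeros
    (∀ h r ε : ℝ, 0 < h → 2 * h ≤ 1 + η → 0 ≤ r → h * r ≤ 1 / 3 → 0 < ε →
      AlmostAll η fun T H t =>
        (1 - (c h - 1) / K (h * r) ^ 2 - ε) * (N (DirichletCharacter.LFunction χ) t (t + H) : ℝ) ≤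
          (isolated (DirichletCharacter.LFunction χ) t (t + H) (2 * Real.pi * r / Real.log T)
            (4 * Real.pi / 5 / (h * Real.log T))).ncard) ∧
    -- the inequality for the families
    (∀ h ε : ℝ, 0 < h → 2 * h ≤ 1 + η → 0 < ε →
      ∃ κ : ℝ, 0 < κ ∧ AlmostAll η fun T H t =>
        ∀ r : ℝ, 0 < r → h * r ≤ 9 / 10 →
        ∀ (k m n : ℕ) (a : Fin m → ℝ), (∀ i, 0 ≤ a i ∧ a i ≤ κ * (H * Real.log T)) →
          (n.choose k * m * (2 - c h - ε) - k * (n + 1).choose (k + 1) / r) *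
            (H / (2 * Real.pi) * Real.log T) ≤
            ∑ I ∈ Finset.powersetCard (k + 1) (Finset.univ : Finset (Fin m)),
              (P (DirichletCharacter.LFunction χ) T t (t + H) r a I : ℝ)) ∧
    -- patterns
    (∀ (h r : ℝ) (k m : ℕ), 0 < h → 2 * h ≤ 1 + η → 0 < r → h * r ≤ 9 / 10 →
      (k : ℝ) < m * r * (2 - c h) →
      ∃ c₀ : ℝ, 0 < c₀ ∧ ∃ κ : ℝ, 0 < κ ∧ AlmostAll η fun T H t =>
        ∀ a : Fin m → ℝ, (∀ i, 0 ≤ a i ∧ a i ≤ κ * (H * Real.log T)) →
        ∃ I : Finset (Fin m), I.card = k + 1 ∧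
          c₀ * (H / (2 * Real.pi) * Real.log T) ≤
            (P (DirichletCharacter.LFunction χ) T t (t + H) r a I : ℝ)) ∧
    -- an example
    (1 / 8 ≤ η → ∀ k : ℕ, ∃ m₀ : ℕ, ∀ m : ℕ, m₀ ≤ m →
      ∃ c₀ : ℝ, 0 < c₀ ∧ ∃ κ : ℝ, 0 < κ ∧ AlmostAll η fun T H t =>
        ∀ a : Fin m → ℝ, (∀ i, 0 ≤ a i ∧ a i ≤ κ * (H * Real.log T)) →
        ∃ I : Finset (Fin m), I.card = k + 1 ∧
          c₀ * (H / (2 * Real.pi) * Real.log T) ≤
            (P (DirichletCharacter.LFunction χ) T t (t + H) 1 a I : ℝ)) := by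
  refine ⟨?_, ?_, ?_, ?_⟩
  · intro h r ε hh hh1 hr0 hr hε
    have hF := H370.good_dirichlet χ hχ
    have hB := Pool.Agent.Y796.PA.bz_prim χ hχ
    simp only [N_eq, isolated_eq, c_eq hh, K_eq]
    exact Pool.Agent.Y796.PA.iso_aa2 hF hB hη0 hη1 hh hh1 hr0 hr hε
  · intro h ε hh hh1 hε
    exact families χ hχ η h ε hη0 hη1 hh hh1 hε
  · intro h r k m hh hh1 hr0 hrh hm
    exact patterns χ hχ η h r k m hη0 hη1 hh hh1 hr0 hrh hm
  · intro h8 k
    have hc := c_num
    obtain ⟨m₀, hm₀⟩ := exists_nat_gt (k / (2 - c (9 / 16)))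
    refine ⟨m₀, fun m hm => patterns χ hχ η (9 / 16) 1 k m hη0 hη1 (by norm_num) (by linarith)
      one_pos (by norm_num) ?_⟩
    have hm' : (m₀ : ℝ) ≤ m := by exact_mod_cast hm
    rw [div_lt_iff₀ (by linarith)] at hm₀
    rw [mul_one]
    have : (m₀ : ℝ) * (2 - c (9 / 16)) ≤ m * (2 - c (9 / 16)) :=
      mul_le_mul_of_nonneg_right hm' (by linarith)
    linarith

end Pool.Agent.Results.MP_67227b_nt.PatternsAlmostAllIntervals
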